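import Pool.Agent.H70.RG.Targets

/-! MP_2697e3_an, ECVL: convolutions on a ball. -/

set_option autoImplicit false

namespace Pool.Agent.H89.RG

open MeasureTheory Metric Set Filter Topology Pool.Agent.H87.SN Pool.Agent.H70.RG
open scoped ContDiff

theorem pf_CVL (h : T_CVD) : T_CVL := by
  intro n F _ _ _ k v x₀ r t hr ht hk hkt hv
  set B : Set (E n) := closedBall x₀ (r + t) with hB
  have hBm : MeasurableSet B := isClosed_closedBall.measurableSet
  have hvi : Integrable (B.indicator v) := by
    rw [integrable_indicator_iff hBm]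
    exact hv.integrableOn_compact (isCompact_closedBall _ _)
  have hloc : LocallyIntegrable (B.indicator v) volume := hvi.locallyIntegrable
  have hcs : HasCompactSupport k := by
    refine HasCompactSupport.intro (isCompact_closedBall (0 : E n) t) fun x hx => ?_
    by_contra h0
    exact hx (by rw [mem_closedBall, dist_zero_right]; exact hkt x h0)
  have hmem : ∀ x ∈ ball x₀ r, ∀ y : E n, ‖x - y‖ ≤ t → y ∈ B := by
    intro x hx y hy
    rw [mem_ball, dist_eq_norm] at hx
    rw [hB, mem_closedBall, dist_eq_norm]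
    calc ‖y - x₀‖ = ‖(x - x₀) - (x - y)‖ := by rw [sub_sub_sub_cancel_left]
      _ ≤ ‖x - x₀‖ + ‖x - y‖ := norm_sub_le _ _
      _ ≤ r + t := by linarith
  have hcv : ∀ k' : E n → ℝ, (∀ x, k' x ≠ 0 → ‖x‖ ≤ t) → ∀ x ∈ ball x₀ r,
      cv k' v x = cv k' (B.indicator v) x := by
    intro k' hk' x hx
    unfold cv
    congr 1
    funext y
    by_cases h0 : k' (x - y) = 0
    · rw [h0, zero_smul, zero_smul]
    · rw [indicator_of_mem (hmem x hx y (hk' _ h0))]
  have hfd : ∀ e x : E n, fderiv ℝ k x e ≠ 0 → ‖x‖ ≤ t := by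
    intro e x h0
    by_contra hx
    push Not at hx
    apply h0
    have h1 : k =ᶠ[𝓝 x] fun _ => 0 := by
      have h2 : {y : E n | t < ‖y‖} ∈ 𝓝 x :=
        (isOpen_lt continuous_const continuous_norm).mem_nhds hx
      filter_upwards [h2] with y hy
      by_contra h3
      exact absurd (hkt y h3) (not_le.2 hy)
    rw [h1.fderiv_eq]
    simp
  obtain ⟨hC, hF⟩ := h n F k (B.indicator v) hk hcs hloc
  refine ⟨hC.contDiffOn.congr fun x hx => hcv k hkt x hx, fun x hx => ⟨fun e => ?_, ?_, ?_⟩⟩
  · have h1 : cv k v =ᶠ[𝓝 x] cv k (B.indicator v) := by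
      filter_upwards [isOpen_ball.mem_nhds hx] with y hy
      exact hcv k hkt y hy
    rw [h1.fderiv_eq, hF x e]
    exact (hcv _ (hfd e) x hx).symm
  · have h1 := integral_sub_left_eq_self (fun z => k (x - z) • v z) (volume : Measure (E n)) x
    simp only [sub_sub_cancel] at h1
    exact h1.symm
  · have h1 : Integrable (fun y => k y • B.indicator v (x - y)) :=
      (HasCompactSupport.convolutionExists_left (ContinuousLinearMap.lsmul ℝ ℝ) hcs
        hk.continuous hloc) x
    refine h1.congr (Eventually.of_forall fun y => ?_)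
    by_cases h0 : k y = 0
    · simp only [h0, zero_smul]
    · have h2 : x - y ∈ B := hmem x hx (x - y) (by rw [sub_sub_cancel]; exact hkt y h0)
      simp only [indicator_of_mem h2]

end Pool.Agent.H89.RG
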