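import Pool.Agent.H90.RG.Targets2

/-! MP_2697e3_an, G_SYH: the system with the antisymmetric form. -/

set_option autoImplicit false

namespace Pool.Agent.H89.RG

open MeasureTheory Metric Set Filter Topology Pool.Agent.H87.SN Pool.Agent.H90.RG
open Pool.Agent.H14.RG (IsClosedSubmanifold row)
open scoped ContDiff RealInnerProductSpace ENNReal

/-- test functions times integrable functions -/
lemma int_test {n : ℕ} {F : Type*} [NormedAddCommGroup F] [NormedSpace ℝ F] {c : E n → ℝ}
    (hc : Continuous c) (hs : HasCompactSupport c)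
    (hsub : Function.support c ⊆ ball (0 : E n) 2) {w : E n → F}
    (hw : IntegrableOn w (ball 0 2)) : Integrable (fun x => c x • w x) := by
  obtain ⟨C, hC⟩ := hs.exists_bound_of_continuous hc
  have h1 : IntegrableOn (fun x => c x • w x) (ball 0 2) := by
    refine Integrable.mono' (hw.norm.const_mul C) (hc.aestronglyMeasurable.smul hw.1) ?_
    refine Eventually.of_forall fun x => ?_
    rw [norm_smul]
    exact mul_le_mul_of_nonneg_right (hC x) (norm_nonneg _)
  refine (integrableOn_iff_integrable_of_support_subset ?_).1 h1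
  intro x hx
  apply hsub
  intro h0
  apply hx
  show c x • w x = 0
  rw [h0, zero_smul]

lemma tst_fderiv {n : ℕ} {φ : E n → ℝ} (hφ : Pool.Agent.H48.RG.Tst (ball (0 : E n) 2) φ)
    (v : E n) : Continuous (fun x => fderiv ℝ φ x v) ∧
    HasCompactSupport (fun x => fderiv ℝ φ x v) ∧
    Function.support (fun x => fderiv ℝ φ x v) ⊆ ball (0 : E n) 2 := by
  obtain ⟨h1, h2, h3⟩ := hφ
  refine ⟨(h1.continuous_fderiv (by simp)).clm_apply continuous_const,
    h2.fderiv_apply ℝ v, fun x hx => h3 (support_fderiv_subset ℝ ?_)⟩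
  intro h0
  apply hx
  show fderiv ℝ φ x v = 0
  rw [h0]
  rfl

lemma coord {n m : ℕ} {F : E n → E m} (hF : Integrable F) (k : Fin m) :
    (∫ x, F x) k = ∫ x, F x k :=
  ((EuclideanSpace.proj k : E m →L[ℝ] ℝ).integral_comp_comm hF).symm

lemma row_sum {n m : ℕ} (L : E n →L[ℝ] E m) (i : Fin m) :
    row L i = ∑ α, (L (bv α)) i • (bv α : E n) := by
  ext β
  rw [WithLp.ofLp_sum, Finset.sum_apply]
  simp [row, bv]

theorem pf_SYH (hR : T_ROW) (hO : Pool.Agent.H14.RG.T_OMG) : T_SYH := by
  intro m k N A hN hA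
  obtain ⟨C, hC, hAC, hO⟩ := hO m k N A hN hA
  refine ⟨C, hC, ?_⟩
  intro n u G h
  obtain ⟨R1, R2, R3⟩ := hR n m
  obtain ⟨Om, o1, o2, o3, o4⟩ := hO n u G h.w12 h.mem
  have : IsFiniteMeasure (volume.restrict (ball (0 : E n) 2)) :=
    ⟨by rw [Measure.restrict_apply_univ]; exact measure_ball_lt_top⟩
  have hu1 : IntegrableOn u (ball (0 : E n) 2) := h.w12.memLp.integrable (by norm_num)
  have hG1 : IntegrableOn G (ball (0 : E n) 2) := h.w12.memLp_deriv.integrable (by norm_num)
  have hGv : ∀ v : E n, IntegrableOn (fun x => G x v) (ball (0 : E n) 2) := fun v =>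
    (ContinuousLinearMap.apply ℝ (E m) v).integrable_comp hG1
  have hG2 : IntegrableOn (fun x => ‖G x‖ ^ 2) (ball (0 : E n) 2) :=
    MemLp.integrable_norm_pow (p := 2) h.w12.memLp_deriv two_ne_zero
  have hrow : ∀ j, AEStronglyMeasurable (fun x => row (G x) j)
      (volume.restrict (ball (0 : E n) 2)) := fun j => (R3 G _ j h.w12.memLp_deriv).1
  refine ⟨Om, ⟨fun k => ⟨?_, ?_, R3 G _ k h.w12.memLp_deriv, ?_⟩, o1, fun i j x => o2 j i x,
    fun i j => Eventually.of_forall fun x => (o3 i j x).trans ?_, ?_⟩⟩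
  · exact (EuclideanSpace.proj k : E m →L[ℝ] ℝ).continuous.comp_aestronglyMeasurable
      h.w12.memLp.1
  · obtain ⟨B, hB⟩ := hN.compact.isBounded.exists_norm_le
    refine ⟨B, ?_⟩
    filter_upwards [h.mem] with x hx
    have h1 : ‖u x k‖ ≤ ‖u x‖ := PiLp.norm_apply_le (u x) k
    rw [Real.norm_eq_abs] at h1
    exact h1.trans (hB _ hx)
  · intro φ hφ v
    have h1 := h.w12.weak φ hφ v
    obtain ⟨f1, f2, f3⟩ := tst_fderiv hφ v
    have i1 : Integrable (fun x => (fderiv ℝ φ x v) • u x) := int_test f1 f2 f3 hu1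
    have i2 : Integrable (fun x => φ x • G x v) :=
      int_test hφ.1.continuous hφ.2.1 ((subset_tsupport _).trans hφ.2.2) (hGv v)
    have h2 : (∫ x, (fderiv ℝ φ x v) • u x) k = (-∫ x, φ x • G x v) k := by rw [h1]
    rw [PiLp.neg_apply, coord i1, coord i2] at h2
    calc ∫ x, fderiv ℝ φ x v * u x k = ∫ x, ((fderiv ℝ φ x v) • u x) k := rfl
      _ = -∫ x, (φ x • G x v) k := h2
      _ = -∫ x, φ x * ⟪row (G x) k, v⟫ := by
          congr 2
          funext x
          rw [(R1 (G x)).2.2.1 k v]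
          rfl
  · exact mul_le_mul_of_nonneg_left (R1 (G x)).2.1 hC
  · intro i φ hφ
    have h1 := h.harmonic φ hφ
    -- the scalar functions
    set w : Fin m → E n → ℝ := fun i x => ∑ j, ⟪Om i j x, row (G x) j⟫ with hw
    have hwi : ∀ i, IntegrableOn (w i) (ball (0 : E n) 2) := by
      intro i
      refine integrable_finsetSum _ fun j _ => ?_
      refine Integrable.mono' (hG2.const_mul (C * n)) ((o1 i j).inner (hrow j)) ?_
      refine Eventually.of_forall fun x => ?_
      calc ‖⟪Om i j x, row (G x) j⟫‖ ≤ ‖Om i j x‖ * ‖row (G x) j‖ := norm_inner_le_norm _ _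
        _ ≤ (C * ‖G x‖) * (n * ‖G x‖) :=
            mul_le_mul (o3 i j x) ((R1 (G x)).2.2.2.2 j) (norm_nonneg _) (by positivity)
        _ = C * n * ‖G x‖ ^ 2 := by ring
    set W' : E n → E m := fun x => ∑ i, w i x • (bv i : E m) with hW'
    have hW'i : IntegrableOn W' (ball (0 : E n) 2) :=
      integrable_finsetSum _ fun i _ => (hwi i).smul_const _
    have hW'c : ∀ x i, W' x i = w i x := by
      intro x i
      simp only [hW']
      rw [WithLp.ofLp_sum, Finset.sum_apply]
      simp [bv]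
    have i1 : Integrable (fun x => ∑ α : Fin n, (fderiv ℝ φ x (bv α)) • G x (bv α)) := by
      refine integrable_finsetSum _ fun α _ => ?_
      obtain ⟨f1, f2, f3⟩ := tst_fderiv hφ (bv α)
      exact int_test f1 f2 f3 (hGv _)
    have i2 : Integrable (fun x => φ x • W' x) :=
      int_test hφ.1.continuous hφ.2.1 ((subset_tsupport _).trans hφ.2.2) hW'i
    have h3 : ∫ x, φ x • ∑ α : Fin n, A (u x) (G x (bv α)) (G x (bv α)) =
        ∫ x, φ x • W' x := by
      refine integral_congr_ae ?_
      have h4 := (ae_restrict_iff' measurableSet_ball).1 o4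
      filter_upwards [h4] with x hx
      by_cases hxb : x ∈ ball (0 : E n) 2
      · have h5 : ∑ α : Fin n, A (u x) (G x (bv α)) (G x (bv α)) = W' x := by
          ext i
          rw [hW'c]
          exact hx hxb i
        rw [h5]
      · have h5 : φ x = 0 := image_eq_zero_of_notMem_tsupport fun h6 => hxb (hφ.2.2 h6)
        rw [h5, zero_smul, zero_smul]
    have h2 : (∫ x, ∑ α : Fin n, (fderiv ℝ φ x (bv α)) • G x (bv α)) i =
        (∫ x, φ x • W' x) i := by rw [h1, h3]
    rw [coord i1, coord i2] at h2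
    calc ∫ x, fderiv ℝ φ x (row (G x) i)
        = ∫ x, (∑ α : Fin n, (fderiv ℝ φ x (bv α)) • G x (bv α)) i := by
          congr 1
          funext x
          rw [row_sum, map_sum, WithLp.ofLp_sum, Finset.sum_apply]
          refine Finset.sum_congr rfl fun α _ => ?_
          rw [map_smul, smul_eq_mul, PiLp.smul_apply, smul_eq_mul, mul_comm]
      _ = ∫ x, (φ x • W' x) i := h2
      _ = ∫ x, φ x * ∑ j, ⟪Om i j x, row (G x) j⟫ := by
          congr 1
          funext x
          rw [PiLp.smul_apply, hW'c, smul_eq_mul]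

end Pool.Agent.H89.RG
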